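import Mathlib

/-!
Distances squeezed between exponentials: the limit profile and the mixing times.
-/

set_option autoImplicit false

open Filter Topology

namespace Pool.Agent.Y307.Prof

noncomputable section

/-- Data of a sequence of distances squeezed between exponentials. -/
structure Squeeze (d : ℕ → ℕ → ℝ) (q c t : ℕ → ℝ) (R Q : ℕ → ℕ) : Prop where
  low : ∀ n k, k ≤ R n → (1 - 1 / (Q n : ℝ)) * q n ^ k - 1 / (Q n : ℝ) ≤ d n k
  up : ∀ n k, d n k ≤ 1 - (1 - 1 / (Q n : ℝ)) * (1 - q n ^ k * c n)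
  tpos : ∀ n, 2 ≤ t n
  qt : ∀ n, q n = 1 + (-1) / t n
  tlim : Tendsto t atTop atTop
  clim : Tendsto c atTop (𝓝 1)
  Qlim : Tendsto Q atTop atTop
  Q1 : ∀ n, 1 ≤ Q n
  Rt : ∀ s : ℝ, ∀ᶠ n in atTop, s * t n ≤ R n

variable {d : ℕ → ℕ → ℝ} {q c t : ℕ → ℝ} {R Q : ℕ → ℕ}

theorem Squeeze.q_pos (h : Squeeze d q c t R Q) (n : ℕ) : 0 < q n := by
  rw [h.qt, neg_div, ← sub_eq_add_neg, sub_pos, div_lt_one (by linarith [h.tpos n])]
  linarith [h.tpos n]

theorem Squeeze.q_le (h : Squeeze d q c t R Q) (n : ℕ) : q n ≤ 1 := by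
  have : 0 < 1 / t n := one_div_pos.mpr (by linarith [h.tpos n])
  rw [h.qt, neg_div, ← sub_eq_add_neg]
  linarith

theorem Squeeze.pow_lim (h : Squeeze d q c t R Q) {s : ℝ} (hs : 0 ≤ s) :
    Tendsto (fun n => q n ^ ⌊s * t n⌋₊) atTop (𝓝 (Real.exp (-s))) := by
  have h1 : Tendsto (fun n => t n * Real.log (1 + (-1) / t n)) atTop (𝓝 (-1)) :=
    (Real.tendsto_mul_log_one_add_div_atTop (-1)).comp h.tlim
  have h2 : Tendsto (fun n => (⌊s * t n⌋₊ : ℝ) / t n) atTop (𝓝 s) :=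
    (tendsto_nat_floor_mul_div_atTop hs).comp h.tlim
  have h3 := (h2.mul h1)
  have h4 : Tendsto (fun n => Real.exp ((⌊s * t n⌋₊ : ℝ) / t n * (t n * Real.log (1 + (-1) / t n))))
      atTop (𝓝 (Real.exp (s * (-1)))) := (Real.continuous_exp.tendsto _).comp h3
  have e : s * (-1) = -s := by ring
  rw [e] at h4
  refine h4.congr fun n => ?_
  have ht : t n ≠ 0 := by linarith [h.tpos n]
  have h5 : (⌊s * t n⌋₊ : ℝ) / t n * (t n * Real.log (1 + (-1) / t n)) =
      ⌊s * t n⌋₊ * Real.log (q n) := by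
    rw [h.qt]
    field_simp
  rw [h5, Real.exp_nat_mul, Real.exp_log (h.q_pos n)]

theorem Squeeze.invQ (h : Squeeze d q c t R Q) :
    Tendsto (fun n => 1 / (Q n : ℝ)) atTop (𝓝 0) := by
  have h1 : Tendsto (fun n => (Q n : ℝ)) atTop atTop :=
    tendsto_natCast_atTop_atTop.comp h.Qlim
  refine (tendsto_inv_atTop_zero.comp h1).congr fun n => ?_
  simp

theorem Squeeze.low_lim (h : Squeeze d q c t R Q) {s : ℝ} (hs : 0 ≤ s) :
    Tendsto (fun n => (1 - 1 / (Q n : ℝ)) * q n ^ ⌊s * t n⌋₊ - 1 / (Q n : ℝ)) atTop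
      (𝓝 (Real.exp (-s))) := by
  have h1 := (((tendsto_const_nhds (x := (1 : ℝ))).sub h.invQ).mul (h.pow_lim hs)).sub h.invQ
  simpa using h1

theorem Squeeze.up_lim (h : Squeeze d q c t R Q) {s : ℝ} (hs : 0 ≤ s) :
    Tendsto (fun n => 1 - (1 - 1 / (Q n : ℝ)) * (1 - q n ^ ⌊s * t n⌋₊ * c n)) atTop
      (𝓝 (Real.exp (-s))) := by
  have h1 := (tendsto_const_nhds (x := (1 : ℝ))).sub
    (((tendsto_const_nhds (x := (1 : ℝ))).sub h.invQ).mul
      ((tendsto_const_nhds (x := (1 : ℝ))).sub ((h.pow_lim hs).mul h.clim)))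
  simpa using h1

/-- the limit profile -/
theorem Squeeze.profile (h : Squeeze d q c t R Q) {s : ℝ} (hs : 0 ≤ s) :
    Tendsto (fun n => d n ⌊s * t n⌋₊) atTop (𝓝 (Real.exp (-s))) := by
  refine tendsto_of_tendsto_of_tendsto_of_le_of_le' (h.low_lim hs) (h.up_lim hs) ?_ ?_
  · filter_upwards [h.Rt s] with n hn
    apply h.low
    have h1 : (⌊s * t n⌋₊ : ℝ) ≤ s * t n :=
      Nat.floor_le (mul_nonneg hs (by linarith [h.tpos n]))
    exact_mod_cast h1.trans hn
  · exact Eventually.of_forall fun n => h.up n _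

theorem Squeeze.mix_le (h : Squeeze d q c t R Q) {s ε : ℝ} (hs : 0 ≤ s)
    (hε : Real.exp (-s) < ε) :
    ∀ᶠ n in atTop, (({k : ℕ | d n k ≤ ε}).Nonempty ∧
      ((sInf {k : ℕ | d n k ≤ ε} : ℕ) : ℝ) ≤ s * t n) := by
  filter_upwards [(h.profile hs).eventually (gt_mem_nhds hε)] with n hn
  have h1 : ⌊s * t n⌋₊ ∈ {k : ℕ | d n k ≤ ε} := le_of_lt hn
  refine ⟨⟨_, h1⟩, ?_⟩
  have h2 : sInf {k : ℕ | d n k ≤ ε} ≤ ⌊s * t n⌋₊ := Nat.sInf_le h1
  have h3 : (⌊s * t n⌋₊ : ℝ) ≤ s * t n :=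
    Nat.floor_le (mul_nonneg hs (by linarith [h.tpos n]))
  have h4 : ((sInf {k : ℕ | d n k ≤ ε} : ℕ) : ℝ) ≤ ⌊s * t n⌋₊ := by exact_mod_cast h2
  exact h4.trans h3

theorem Squeeze.le_mix (h : Squeeze d q c t R Q) {s ε : ℝ} (hs : 0 ≤ s) (hε0 : 0 < ε)
    (hε : ε < Real.exp (-s)) :
    ∀ᶠ n in atTop, s * t n < ((sInf {k : ℕ | d n k ≤ ε} : ℕ) : ℝ) := by
  have hne : ∀ᶠ n in atTop, ({k : ℕ | d n k ≤ ε}).Nonempty := by
    have h1 : Real.exp (-(max 0 (-Real.log ε) + 1)) < ε := by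
      calc Real.exp (-(max 0 (-Real.log ε) + 1)) < Real.exp (Real.log ε) := by
            apply Real.exp_lt_exp.mpr
            have := le_max_right 0 (-Real.log ε)
            linarith
        _ = ε := Real.exp_log hε0
    filter_upwards [h.mix_le (s := max 0 (-Real.log ε) + 1)
      (by have := le_max_left 0 (-Real.log ε); linarith) h1] with n hn
    exact hn.1
  filter_upwards [(h.low_lim hs).eventually (lt_mem_nhds hε), h.Rt s, hne] with n hn hR hne'
  have hmem := Nat.sInf_mem hne'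
  have ht0 : 0 ≤ s * t n := mul_nonneg hs (by linarith [h.tpos n])
  by_contra hcon
  push Not at hcon
  set m := sInf {k : ℕ | d n k ≤ ε} with hm
  have h1 : m ≤ ⌊s * t n⌋₊ := Nat.le_floor hcon
  have h2 : m ≤ R n := by exact_mod_cast hcon.trans hR
  have h3 := h.low n m h2
  have h4 : q n ^ ⌊s * t n⌋₊ ≤ q n ^ m :=
    pow_le_pow_of_le_one (h.q_pos n).le (h.q_le n) h1
  have h5 : 0 ≤ 1 - 1 / (Q n : ℝ) := by
    have hQ : (1 : ℝ) ≤ Q n := by exact_mod_cast h.Q1 n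
    rw [sub_nonneg, div_le_one (by linarith)]
    exact hQ
  have h6 := mul_le_mul_of_nonneg_left h4 h5
  have h7 : d n m ≤ ε := hmem
  linarith

/-- the mixing times -/
theorem Squeeze.mixing (h : Squeeze d q c t R Q) {ε : ℝ} (hε0 : 0 < ε) (hε1 : ε < 1) :
    Tendsto (fun n => ((sInf {k : ℕ | d n k ≤ ε} : ℕ) : ℝ) / t n) atTop
      (𝓝 (Real.log (1 / ε))) := by
  have hL : Real.log (1 / ε) = -Real.log ε := by rw [one_div, Real.log_inv]
  have hLpos : 0 < -Real.log ε := by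
    have := Real.log_neg hε0 hε1
    linarith
  rw [hL]
  have ht : ∀ n, 0 < t n := fun n => by linarith [h.tpos n]
  refine tendsto_order.2 ⟨fun a ha => ?_, fun b hb => ?_⟩
  · by_cases ha0 : a < 0
    · refine Eventually.of_forall fun n => lt_of_lt_of_le ha0 ?_
      exact div_nonneg (Nat.cast_nonneg _) (ht n).le
    · push Not at ha0
      have h1 : ε < Real.exp (-a) := by
        calc ε = Real.exp (Real.log ε) := (Real.exp_log hε0).symm
          _ < Real.exp (-a) := Real.exp_lt_exp.mpr (by linarith)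
      filter_upwards [h.le_mix ha0 hε0 h1] with n hn
      rw [lt_div_iff₀ (ht n)]
      exact hn
  · set s := (b + -Real.log ε) / 2 with hs
    have hs0 : 0 ≤ s := by rw [hs]; linarith
    have h1 : Real.exp (-s) < ε := by
      calc Real.exp (-s) < Real.exp (Real.log ε) := Real.exp_lt_exp.mpr (by rw [hs]; linarith)
        _ = ε := Real.exp_log hε0
    filter_upwards [h.mix_le hs0 h1] with n hn
    rw [div_lt_iff₀ (ht n)]
    have h2 : s * t n < b * t n := mul_lt_mul_of_pos_right (by rw [hs]; linarith) (ht n)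
    linarith [hn.2]

/-- ratios of mixing times -/
theorem Squeeze.ratio (h : Squeeze d q c t R Q) {ε δ : ℝ} (hε0 : 0 < ε) (hε1 : ε < 1)
    (hδ0 : 0 < δ) (hδ1 : δ < 1) :
    Tendsto (fun n => ((sInf {k : ℕ | d n k ≤ ε} : ℕ) : ℝ) /
      ((sInf {k : ℕ | d n k ≤ δ} : ℕ) : ℝ)) atTop
      (𝓝 (Real.log (1 / ε) / Real.log (1 / δ))) := by
  have hpos : Real.log (1 / δ) ≠ 0 := by
    have := Real.log_neg hδ0 hδ1
    rw [one_div, Real.log_inv]
    linarith
  have h1 := (h.mixing hε0 hε1).div (h.mixing hδ0 hδ1) hpos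
  refine h1.congr fun n => ?_
  have ht : t n ≠ 0 := by linarith [h.tpos n]
  simp only [Pi.div_apply]
  rw [div_div_div_cancel_right₀ ht]

/-- the ratio at level one quarter is not asymptotic to one -/
theorem log_ratio_ne {ε : ℝ} (hε0 : 0 < ε) (hε1 : ε < 1 / 2) :
    1 < Real.log (1 / ε) / Real.log (1 / (1 - ε)) := by
  have h1 : 0 < Real.log (1 / (1 - ε)) := by
    apply Real.log_pos
    rw [lt_div_iff₀ (by linarith)]
    linarith
  rw [one_lt_div h1]
  apply Real.log_lt_log (by apply one_div_pos.mpr; linarith)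
  apply one_div_lt_one_div_of_lt hε0
  linarith

end

end Pool.Agent.Y307.Prof
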