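import Pool.Agent.Y307.Prof.Core
import Pool.Agent.Y307.Prof.Lim

/-!
Bounds for the total variation distance and the separation of the walks with exponential profile.
-/

set_option autoImplicit false

open Finset Filter Topology Pool.Agent.Helper394

namespace Pool.Agent.Y307.Prof

noncomputable section

section gen

variable {G : Type*} [AddCommGroup G] [Fintype G] [DecidableEq G] {S : Finset G} {R Q : ℕ}
  {w : ℝ}

/-- the lazy walk, lower bound -/
theorem Expo.lazy_low (h : Expo S R Q w) :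
    ∃ E : Finset G, (Q : ℝ) * (E.card : ℝ) ≤ Fintype.card G ∧
    ∀ j ≤ R, (1 - 1 / (Q : ℝ)) * ((1 + w) / 2) ^ j ≤
      (V S ^ j) (fun x => if x ∈ E then (1 : ℝ) else 0) 0 := by
  obtain ⟨E, hE, hl⟩ := h.lower
  refine ⟨E, hE, fun j hj => ?_⟩
  rw [V_pow_apply]
  have e1 : ((1 + w) / 2) ^ j = (1 / 2 : ℝ) ^ j * ∑ k ∈ range (j + 1), (j.choose k : ℝ) * w ^ k := by
    rw [show (1 + w) / 2 = (1 / 2) * (w + 1) by ring, mul_pow, add_pow]
    congr 1
    refine Finset.sum_congr rfl fun k _ => ?_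
    rw [one_pow]
    ring
  rw [e1, mul_left_comm, Finset.mul_sum]
  apply mul_le_mul_of_nonneg_left _ (by positivity)
  apply Finset.sum_le_sum
  intro k hk
  rw [mul_left_comm]
  apply mul_le_mul_of_nonneg_left _ (Nat.cast_nonneg _)
  apply hl
  rw [Finset.mem_range] at hk
  omega

/-- the plain walk, upper bound for all times -/
theorem Expo.up (h : Expo S R Q w) (hQ : 1 ≤ Q) (hw0 : 0 < w) (hw1 : w < 1) (k : ℕ)
    (f : G → ℝ) (hf : ∀ x, 0 ≤ f x) (x : G) :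
    (1 - 1 / (Q : ℝ)) * (1 - w ^ k * (1 / w ^ 2)) * ((∑ y, f y) / Fintype.card G) ≤
      (U S ^ k) f x := by
  have hmn0 : 0 ≤ (∑ y, f y) / Fintype.card G :=
    div_nonneg (Finset.sum_nonneg fun _ _ => hf _) (Nat.cast_nonneg _)
  have hQ' : (1 : ℝ) ≤ Q := by exact_mod_cast hQ
  have hQ1 : 0 ≤ 1 - 1 / (Q : ℝ) := by
    rw [sub_nonneg, div_le_one (by linarith)]
    exact hQ'
  rcases Nat.lt_or_ge k 2 with hk | hk
  · refine le_trans ?_ (U_pow_nonneg S k hf x)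
    have h1 : 1 ≤ w ^ k * (1 / w ^ 2) := by
      rw [mul_one_div, one_le_div (by positivity)]
      exact pow_le_pow_of_le_one hw0.le hw1.le hk.le
    have h2 : (1 - 1 / (Q : ℝ)) * (1 - w ^ k * (1 / w ^ 2)) ≤ 0 :=
      mul_nonpos_of_nonneg_of_nonpos hQ1 (by linarith)
    exact mul_nonpos_of_nonpos_of_nonneg h2 hmn0
  · obtain ⟨m, rfl⟩ := Nat.exists_eq_add_of_le' hk
    have e : w ^ (m + 2) * (1 / w ^ 2) = w ^ m := by
      rw [pow_add]
      field_simp
    rw [e]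
    exact h.upper m f hf x

/-- the lazy walk, upper bound for all times -/
theorem Expo.lazy_up (h : Expo S R Q w) (hQ : 1 ≤ Q) (hw0 : 0 < w) (hw1 : w < 1) (k : ℕ)
    (f : G → ℝ) (hf : ∀ x, 0 ≤ f x) (x : G) :
    (1 - 1 / (Q : ℝ)) * (1 - ((1 + w) / 2) ^ k * (1 / w ^ 2)) *
      ((∑ y, f y) / Fintype.card G) ≤ (V S ^ k) f x := by
  rw [V_pow_apply]
  have h1 := sum_choose_half k
  have e1 : ((1 + w) / 2) ^ k = (1 / 2 : ℝ) ^ k * ∑ j ∈ range (k + 1), (k.choose j : ℝ) * w ^ j := by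
    rw [show (1 + w) / 2 = (1 / 2) * (w + 1) by ring, mul_pow, add_pow]
    congr 1
    refine Finset.sum_congr rfl fun k _ => ?_
    rw [one_pow]
    ring
  set mn := (∑ y, f y) / (Fintype.card G : ℝ) with hmn
  calc (1 - 1 / (Q : ℝ)) * (1 - ((1 + w) / 2) ^ k * (1 / w ^ 2)) * mn
      = (1 / 2 : ℝ) ^ k * ∑ j ∈ range (k + 1), (k.choose j : ℝ) *
          ((1 - 1 / (Q : ℝ)) * (1 - w ^ j * (1 / w ^ 2)) * mn) := by
        have e2 : ∑ j ∈ range (k + 1), (k.choose j : ℝ) *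
            ((1 - 1 / (Q : ℝ)) * (1 - w ^ j * (1 / w ^ 2)) * mn) =
            (1 - 1 / (Q : ℝ)) * mn * (∑ j ∈ range (k + 1), (k.choose j : ℝ) -
              (1 / w ^ 2) * ∑ j ∈ range (k + 1), (k.choose j : ℝ) * w ^ j) := by
          rw [Finset.mul_sum, ← Finset.sum_sub_distrib, Finset.mul_sum]
          refine Finset.sum_congr rfl fun j _ => ?_
          ring
        rw [e2]
        have e3 : (1 / 2 : ℝ) ^ k * ((1 - 1 / (Q : ℝ)) * mn *
            (∑ j ∈ range (k + 1), (k.choose j : ℝ) -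
              (1 / w ^ 2) * ∑ j ∈ range (k + 1), (k.choose j : ℝ) * w ^ j)) =
            (1 - 1 / (Q : ℝ)) * mn * ((1 / 2 : ℝ) ^ k * ∑ j ∈ range (k + 1), (k.choose j : ℝ) -
              (1 / w ^ 2) * ((1 / 2 : ℝ) ^ k *
                ∑ j ∈ range (k + 1), (k.choose j : ℝ) * w ^ j)) := by ring
        rw [e3, h1, ← e1]
        ring
    _ ≤ _ := by
        apply mul_le_mul_of_nonneg_left _ (by positivity)
        apply Finset.sum_le_sum
        intro j _
        apply mul_le_mul_of_nonneg_left _ (Nat.cast_nonneg _)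
        exact h.up hQ hw0 hw1 j f hf x

end gen

section tv

variable {Ω : Type*} [Fintype Ω] [DecidableEq Ω]

/-- lower bound for the total variation distance to uniform -/
theorem tv_low (p : Ω → ℝ) (hp : ∑ y, p y = 1) (Q : ℕ) (hQ : 1 ≤ Q) (E : Finset Ω)
    (hE : (Q : ℝ) * (E.card : ℝ) ≤ Fintype.card Ω) (a : ℝ)
    (hpE : a ≤ ∑ y, p y * (if y ∈ E then (1 : ℝ) else 0)) [Nonempty Ω] :
    a - 1 / (Q : ℝ) ≤ (1 / 2 : ℝ) * ∑ y, |p y - 1 / (Fintype.card Ω : ℝ)| := by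
  have hG : (0 : ℝ) < Fintype.card Ω := by exact_mod_cast Fintype.card_pos
  have hQ' : (0 : ℝ) < Q := by exact_mod_cast hQ
  have h1 : ∑ y, (p y - 1 / (Fintype.card Ω : ℝ)) = 0 := by
    rw [Finset.sum_sub_distrib, hp]
    simp only [Finset.sum_const, Finset.card_univ, nsmul_eq_mul]
    field_simp
    norm_num
  set q : Ω → ℝ := fun y => p y - 1 / (Fintype.card Ω : ℝ) with hq
  have h2 : ∑ y, q y * (2 * (if y ∈ E then (1 : ℝ) else 0) - 1) ≤ ∑ y, |q y| := by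
    apply Finset.sum_le_sum
    intro y _
    split_ifs
    · have := le_abs_self (q y); linarith
    · have := neg_abs_le (q y); linarith
  have h3 : ∑ y, q y * (2 * (if y ∈ E then (1 : ℝ) else 0) - 1) =
      2 * (∑ y, p y * (if y ∈ E then (1 : ℝ) else 0)) - 2 * (E.card / Fintype.card Ω) := by
    have e1 : ∀ y, q y * (2 * (if y ∈ E then (1 : ℝ) else 0) - 1) =
        2 * (p y * (if y ∈ E then (1 : ℝ) else 0)) -
        (2 / (Fintype.card Ω : ℝ)) * (if y ∈ E then (1 : ℝ) else 0) - q y := by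
      intro y
      simp only [hq]
      ring
    simp only [e1]
    rw [Finset.sum_sub_distrib, Finset.sum_sub_distrib, h1, ← Finset.mul_sum, ← Finset.mul_sum]
    simp
    ring
  have h4 : (E.card : ℝ) / Fintype.card Ω ≤ 1 / (Q : ℝ) := by
    rw [div_le_div_iff₀ hG hQ']
    linarith
  change a - 1 / (Q : ℝ) ≤ (1 / 2 : ℝ) * ∑ y, |q y|
  linarith

/-- separation is at least total variation -/
theorem tv_le_of_min (p : Ω → ℝ) (hp : ∑ y, p y = 1) (c : ℝ)
    (hpc : ∀ y, c / (Fintype.card Ω : ℝ) ≤ p y) [Nonempty Ω] :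
    (1 / 2 : ℝ) * ∑ y, |p y - 1 / (Fintype.card Ω : ℝ)| ≤ 1 - c := by
  have hG : (0 : ℝ) < Fintype.card Ω := by exact_mod_cast Fintype.card_pos
  have hc1 : c ≤ 1 := by
    have h1 := Finset.sum_le_sum fun y (_ : y ∈ (univ : Finset Ω)) => hpc y
    rw [hp] at h1
    simp only [Finset.sum_const, Finset.card_univ, nsmul_eq_mul] at h1
    have e2 : (Fintype.card Ω : ℝ) * (c / Fintype.card Ω) = c := by field_simp
    linarith
  have h1 : ∀ y, |p y - 1 / (Fintype.card Ω : ℝ)| ≤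
      (p y - c / (Fintype.card Ω : ℝ)) + (1 - c) / (Fintype.card Ω : ℝ) := by
    intro y
    have e1 : p y - 1 / (Fintype.card Ω : ℝ) =
      (p y - c / (Fintype.card Ω : ℝ)) - (1 - c) / (Fintype.card Ω : ℝ) := by ring
    rw [e1]
    refine (abs_sub _ _).trans ?_
    rw [abs_of_nonneg (by linarith [hpc y]),
      abs_of_nonneg (div_nonneg (by linarith) hG.le)]
  have h2 := Finset.sum_le_sum fun y (_ : y ∈ univ) => h1 y
  rw [Finset.sum_add_distrib, Finset.sum_sub_distrib, hp] at h2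
  simp only [Finset.sum_const, Finset.card_univ, nsmul_eq_mul] at h2
  have e2 : (Fintype.card Ω : ℝ) * (c / Fintype.card Ω) = c := by field_simp
  have e3 : (Fintype.card Ω : ℝ) * ((1 - c) / Fintype.card Ω) = 1 - c := by field_simp
  rw [e2, e3] at h2
  linarith

end tv

section lazy

variable {G : Type*} [AddCommGroup G] [Fintype G] [DecidableEq G] {S : Finset G} {R Q : ℕ}
  {w : ℝ} {P : Matrix G G ℝ}

theorem Expo.entry (h : Expo S R Q w) (hQ : 1 ≤ Q) (hw0 : 0 < w) (hw1 : w < 1)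
    (hP : ∀ f : G → ℝ, P.mulVec f = V S f) (k : ℕ) (x y : G) :
    ((1 - 1 / (Q : ℝ)) * (1 - ((1 + w) / 2) ^ k * (1 / w ^ 2))) / Fintype.card G ≤
      (P ^ k) x y := by
  rw [mat_entry hP]
  have := h.lazy_up hQ hw0 hw1 k (Pi.single y 1) (fun z => by
    rw [Pi.single_apply]; split_ifs <;> norm_num) x
  rw [Finset.sum_pi_single' y (1 : ℝ) univ] at this
  simp only [Finset.mem_univ, if_true] at this
  calc _ = (1 - 1 / (Q : ℝ)) * (1 - ((1 + w) / 2) ^ k * (1 / w ^ 2)) *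
        (1 / Fintype.card G) := by ring
    _ ≤ _ := this

theorem Expo.tv_lazy (h : Expo S R Q w) (hQ : 1 ≤ Q) (hrow : ∀ t x, ∑ y, (P ^ t) x y = 1)
    (hP : ∀ f : G → ℝ, P.mulVec f = V S f) (k : ℕ) (hk : k ≤ R) :
    (1 - 1 / (Q : ℝ)) * ((1 + w) / 2) ^ k - 1 / (Q : ℝ) ≤
      (1 / 2 : ℝ) * ∑ y, |(P ^ k) 0 y - 1 / (Fintype.card G : ℝ)| := by
  obtain ⟨E, hE, hl⟩ := h.lazy_low
  refine tv_low _ (hrow k 0) Q hQ E hE _ ?_
  rw [mat_sum hP]
  exact hl k hk

end lazy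

/-- the step sets used in the applications -/
theorem exists_seq : ∃ (N : ℕ → ℕ) (_ : ∀ n, NeZero (N n)) (S : ∀ n, Finset (ZMod (N n)))
    (w : ℕ → ℝ), (∀ n, n + 64 ≤ N n) ∧
      (∀ n : ℕ, 1 / (9 * ((n : ℝ) + 64)) ≤ 1 - w n) ∧
      (∀ n : ℕ, 1 - w n ≤ 1 / (4 * ((n : ℝ) + 64))) ∧
      (∀ n, Expo (S n) ((n + 64) ^ 2) (n + 64) (w n)) := by
  choose N hN S w hTN h1 h2 h3 using fun n : ℕ => exists_prof (n + 64) ((n + 64) ^ 2) (n + 64)
    (by omega) (by omega) le_rfl (Nat.one_le_pow _ _ (by omega))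
  refine ⟨N, hN, S, w, hTN, fun n => ?_, fun n => ?_, h3⟩
  · have := h1 n
    push_cast at this
    exact this
  · have := h2 n
    push_cast at this
    exact this

section seq

variable {w : ℕ → ℝ}

theorem w_pos (h2 : ∀ n : ℕ, 1 - w n ≤ 1 / (4 * ((n : ℝ) + 64))) (n : ℕ) : 0 < w n := by
  have h3 : 1 / (4 * ((n : ℝ) + 64)) ≤ 1 / 256 := by
    apply one_div_le_one_div_of_le (by norm_num)
    have : (0 : ℝ) ≤ n := Nat.cast_nonneg n
    linarith
  have := h2 n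
  linarith

theorem w_lt (h1 : ∀ n : ℕ, 1 / (9 * ((n : ℝ) + 64)) ≤ 1 - w n) (n : ℕ) : w n < 1 := by
  have h3 : 0 < 1 / (9 * ((n : ℝ) + 64)) := by positivity
  have := h1 n
  linarith

theorem w_lim (h1 : ∀ n : ℕ, 1 / (9 * ((n : ℝ) + 64)) ≤ 1 - w n)
    (h2 : ∀ n : ℕ, 1 - w n ≤ 1 / (4 * ((n : ℝ) + 64))) : Tendsto w atTop (𝓝 1) := by
  have h4 : Tendsto (fun n : ℕ => 1 / (4 * ((n : ℝ) + 64))) atTop (𝓝 0) := by
    have h5 : Tendsto (fun n : ℕ => 4 * ((n : ℝ) + 64)) atTop atTop := by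
      apply Tendsto.const_mul_atTop (by norm_num)
      exact tendsto_atTop_add_const_right _ _ tendsto_natCast_atTop_atTop
    refine (tendsto_inv_atTop_zero.comp h5).congr fun n => ?_
    simp
  have h5 : Tendsto (fun n => 1 - w n) atTop (𝓝 0) :=
    squeeze_zero (fun n => by have := w_lt h1 n; linarith) h2 h4
  have h6 := (tendsto_const_nhds (x := (1 : ℝ))).sub h5
  simpa using h6

/-- `κ` is 1 for the plain walk and 1/2 for the lazy walk -/
theorem squeeze_of (h1 : ∀ n : ℕ, 1 / (9 * ((n : ℝ) + 64)) ≤ 1 - w n)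
    (h2 : ∀ n : ℕ, 1 - w n ≤ 1 / (4 * ((n : ℝ) + 64))) (κ : ℝ) (hκ0 : 1 / 2 ≤ κ) (hκ1 : κ ≤ 1)
    (d : ℕ → ℕ → ℝ)
    (hlow : ∀ n k : ℕ, k ≤ (n + 64) ^ 2 →
      (1 - 1 / ((n + 64 : ℕ) : ℝ)) * (1 - κ * (1 - w n)) ^ k - 1 / ((n + 64 : ℕ) : ℝ) ≤ d n k)
    (hup : ∀ n k : ℕ, d n k ≤ 1 - (1 - 1 / ((n + 64 : ℕ) : ℝ)) *
      (1 - (1 - κ * (1 - w n)) ^ k * (1 / w n ^ 2))) :
    Squeeze d (fun n => 1 - κ * (1 - w n)) (fun n => 1 / w n ^ 2)
      (fun n => 1 / (κ * (1 - w n))) (fun n => (n + 64) ^ 2) (fun n => n + 64) := by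
  have hv : ∀ n, 0 < κ * (1 - w n) := fun n =>
    mul_pos (by linarith) (by have := w_lt h1 n; linarith)
  have hge : ∀ n : ℕ, 4 * ((n : ℝ) + 64) ≤ 1 / (κ * (1 - w n)) := by
    intro n
    rw [le_div_iff₀ (hv n)]
    have h3 := h2 n
    have hn : (0 : ℝ) < 4 * ((n : ℝ) + 64) := by positivity
    rw [le_div_iff₀ hn] at h3
    have h4 : 0 ≤ (1 - w n) * (4 * ((n : ℝ) + 64)) :=
      mul_nonneg (by have := w_lt h1 n; linarith) hn.le
    nlinarith
  have hle : ∀ n : ℕ, 1 / (κ * (1 - w n)) ≤ 18 * ((n : ℝ) + 64) := by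
    intro n
    rw [div_le_iff₀ (hv n)]
    have h3 := h1 n
    have hn : (0 : ℝ) < 9 * ((n : ℝ) + 64) := by positivity
    rw [div_le_iff₀ hn] at h3
    nlinarith
  refine ⟨hlow, hup, fun n => ?_, fun n => ?_, ?_, ?_, ?_, fun n => by omega, fun s => ?_⟩
  · have := hge n
    have hn : (0 : ℝ) ≤ n := Nat.cast_nonneg n
    linarith
  · have := (hv n).ne'
    rw [neg_div, one_div_one_div]
    ring
  · refine tendsto_atTop_mono hge ?_
    apply Tendsto.const_mul_atTop (by norm_num)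
    exact tendsto_atTop_add_const_right _ _ tendsto_natCast_atTop_atTop
  · have h3 := ((w_lim h1 h2).pow 2).inv₀ (by norm_num)
    simpa using h3
  · exact tendsto_add_atTop_nat 64
  · obtain ⟨m, hm⟩ := exists_nat_gt (18 * |s|)
    filter_upwards [eventually_ge_atTop m] with n hn
    have hn' : (m : ℝ) ≤ n := by exact_mod_cast hn
    have h3 := hle n
    have h4 : (0 : ℝ) ≤ 1 / (κ * (1 - w n)) := by have := hv n; positivity
    push_cast
    calc s * (1 / (κ * (1 - w n))) ≤ |s| * (1 / (κ * (1 - w n))) :=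
          mul_le_mul_of_nonneg_right (le_abs_self s) h4
      _ ≤ |s| * (18 * ((n : ℝ) + 64)) := mul_le_mul_of_nonneg_left h3 (abs_nonneg s)
      _ = (18 * |s|) * ((n : ℝ) + 64) := by ring
      _ ≤ ((n : ℝ) + 64) * ((n : ℝ) + 64) := by
          apply mul_le_mul_of_nonneg_right _ (by positivity)
          linarith
      _ = ((n : ℝ) + 64) ^ 2 := by ring

end seq

end

end Pool.Agent.Y307.Prof
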