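import Pool.Agent.Y307.Prof.Walk
import Pool.Agent.H990R2.CTFam

/-!
Continuous time: distances squeezed between exponentials, and the Poisson mixtures.
-/

set_option autoImplicit false

open Finset Filter Topology Pool.Agent

namespace Pool.Agent.Y307.Prof

noncomputable section

/-- Data of a sequence of distances in continuous time squeezed between exponentials. -/
structure CSq (d : ℕ → ℝ → ℝ) (c t η : ℕ → ℝ) (Q : ℕ → ℕ) : Prop where
  low : ∀ n r, 0 ≤ r → (1 - 1 / (Q n : ℝ)) * (Real.exp (-(r / t n)) - η n * Real.exp r) -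
    1 / (Q n : ℝ) ≤ d n r
  up : ∀ n r, 0 ≤ r → d n r ≤ 1 - (1 - 1 / (Q n : ℝ)) * (1 - Real.exp (-(r / t n)) * c n)
  tpos : ∀ n, 0 < t n
  tlim : Tendsto t atTop atTop
  clim : Tendsto c atTop (𝓝 1)
  Qlim : Tendsto Q atTop atTop
  Q1 : ∀ n, 1 ≤ Q n
  η0 : ∀ n, 0 ≤ η n
  ηlim : ∀ a : ℝ, Tendsto (fun n => η n * Real.exp (a * t n)) atTop (𝓝 0)

variable {d : ℕ → ℝ → ℝ} {c t η : ℕ → ℝ} {Q : ℕ → ℕ}

theorem CSq.invQ (h : CSq d c t η Q) : Tendsto (fun n => 1 / (Q n : ℝ)) atTop (𝓝 0) := by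
  have h1 : Tendsto (fun n => (Q n : ℝ)) atTop atTop :=
    tendsto_natCast_atTop_atTop.comp h.Qlim
  refine (tendsto_inv_atTop_zero.comp h1).congr fun n => ?_
  simp

theorem CSq.ηr (h : CSq d c t η Q) {r : ℕ → ℝ} {s : ℝ} (hr : ∀ n, 0 ≤ r n)
    (hs : Tendsto (fun n => r n / t n) atTop (𝓝 s)) :
    Tendsto (fun n => η n * Real.exp (r n)) atTop (𝓝 0) := by
  have h1 : ∀ᶠ n in atTop, r n / t n < s + 1 := hs.eventually (gt_mem_nhds (by linarith))
  refine squeeze_zero' (Eventually.of_forall fun n =>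
    mul_nonneg (h.η0 n) (Real.exp_pos _).le) ?_ (h.ηlim (s + 1))
  filter_upwards [h1] with n hn
  apply mul_le_mul_of_nonneg_left _ (h.η0 n)
  apply Real.exp_le_exp.mpr
  rw [div_lt_iff₀ (h.tpos n)] at hn
  exact hn.le

theorem CSq.low_lim (h : CSq d c t η Q) {r : ℕ → ℝ} {s : ℝ} (hr : ∀ n, 0 ≤ r n)
    (hs : Tendsto (fun n => r n / t n) atTop (𝓝 s)) :
    Tendsto (fun n => (1 - 1 / (Q n : ℝ)) * (Real.exp (-(r n / t n)) - η n * Real.exp (r n)) -
      1 / (Q n : ℝ)) atTop (𝓝 (Real.exp (-s))) := by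
  have h1 : Tendsto (fun n => Real.exp (-(r n / t n))) atTop (𝓝 (Real.exp (-s))) :=
    (Real.continuous_exp.tendsto _).comp hs.neg
  have h2 := (((tendsto_const_nhds (x := (1 : ℝ))).sub h.invQ).mul
    (h1.sub (h.ηr hr hs))).sub h.invQ
  simpa using h2

theorem CSq.up_lim (h : CSq d c t η Q) {r : ℕ → ℝ} {s : ℝ}
    (hs : Tendsto (fun n => r n / t n) atTop (𝓝 s)) :
    Tendsto (fun n => 1 - (1 - 1 / (Q n : ℝ)) * (1 - Real.exp (-(r n / t n)) * c n)) atTop
      (𝓝 (Real.exp (-s))) := by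
  have h1 : Tendsto (fun n => Real.exp (-(r n / t n))) atTop (𝓝 (Real.exp (-s))) :=
    (Real.continuous_exp.tendsto _).comp hs.neg
  have h2 := (tendsto_const_nhds (x := (1 : ℝ))).sub
    (((tendsto_const_nhds (x := (1 : ℝ))).sub h.invQ).mul
      ((tendsto_const_nhds (x := (1 : ℝ))).sub (h1.mul h.clim)))
  simpa using h2

/-- the limit profile in continuous time -/
theorem CSq.profile (h : CSq d c t η Q) {r : ℕ → ℝ} {s : ℝ} (hr : ∀ n, 0 ≤ r n)
    (hs : Tendsto (fun n => r n / t n) atTop (𝓝 s)) :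
    Tendsto (fun n => d n (r n)) atTop (𝓝 (Real.exp (-s))) :=
  tendsto_of_tendsto_of_tendsto_of_le_of_le (h.low_lim hr hs) (h.up_lim hs)
    (fun n => h.low n _ (hr n)) (fun n => h.up n _ (hr n))

theorem CSq.lin (h : CSq d c t η Q) (s : ℝ) :
    Tendsto (fun n => (s * t n) / t n) atTop (𝓝 s) := by
  refine (tendsto_congr fun n => ?_).mpr tendsto_const_nhds
  have := (h.tpos n).ne'
  field_simp

theorem CSq.mix_le (h : CSq d c t η Q) {s ε : ℝ} (hs : 0 ≤ s) (hε : Real.exp (-s) < ε) :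
    ∀ᶠ n in atTop, ({r : ℝ | 0 ≤ r ∧ d n r ≤ ε}).Nonempty ∧
      sInf {r : ℝ | 0 ≤ r ∧ d n r ≤ ε} ≤ s * t n := by
  filter_upwards [(h.profile (fun n => mul_nonneg hs (h.tpos n).le) (h.lin s)).eventually
    (gt_mem_nhds hε)] with n hn
  have h1 : s * t n ∈ {r : ℝ | 0 ≤ r ∧ d n r ≤ ε} :=
    ⟨mul_nonneg hs (h.tpos n).le, le_of_lt hn⟩
  exact ⟨⟨_, h1⟩, csInf_le ⟨0, fun r hr => hr.1⟩ h1⟩

theorem CSq.le_mix (h : CSq d c t η Q) {s ε : ℝ} (hs : 0 ≤ s) (hε0 : 0 < ε)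
    (hε : ε < Real.exp (-s)) :
    ∀ᶠ n in atTop, s * t n ≤ sInf {r : ℝ | 0 ≤ r ∧ d n r ≤ ε} := by
  have hne : ∀ᶠ n in atTop, ({r : ℝ | 0 ≤ r ∧ d n r ≤ ε}).Nonempty := by
    have h1 : Real.exp (-(max 0 (-Real.log ε) + 1)) < ε := by
      calc Real.exp (-(max 0 (-Real.log ε) + 1)) < Real.exp (Real.log ε) := by
            apply Real.exp_lt_exp.mpr
            have := le_max_right 0 (-Real.log ε)
            linarith
        _ = ε := Real.exp_log hε0
    filter_upwards [h.mix_le (s := max 0 (-Real.log ε) + 1)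
      (by have := le_max_left 0 (-Real.log ε); linarith) h1] with n hn
    exact hn.1
  filter_upwards [(h.low_lim (fun n => mul_nonneg hs (h.tpos n).le) (h.lin s)).eventually
    (lt_mem_nhds hε), hne] with n hn hne'
  apply le_csInf hne'
  rintro r ⟨hr0, hr⟩
  by_contra hcon
  push Not at hcon
  have h3 := h.low n r hr0
  have h4 : Real.exp (-((s * t n) / t n)) ≤ Real.exp (-(r / t n)) := by
    apply Real.exp_le_exp.mpr
    apply neg_le_neg
    exact div_le_div_of_nonneg_right hcon.le (h.tpos n).le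
  have h5 : η n * Real.exp r ≤ η n * Real.exp (s * t n) := by
    apply mul_le_mul_of_nonneg_left _ (h.η0 n)
    exact Real.exp_le_exp.mpr hcon.le
  have h6 : 0 ≤ 1 - 1 / (Q n : ℝ) := by
    have hQ : (1 : ℝ) ≤ Q n := by exact_mod_cast h.Q1 n
    rw [sub_nonneg, div_le_one (by linarith)]
    exact hQ
  have h7 := mul_le_mul_of_nonneg_left (sub_le_sub h4 h5) h6
  linarith

/-- the mixing times in continuous time -/
theorem CSq.mixing (h : CSq d c t η Q) {ε : ℝ} (hε0 : 0 < ε) (hε1 : ε < 1) :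
    Tendsto (fun n => sInf {r : ℝ | 0 ≤ r ∧ d n r ≤ ε} / t n) atTop
      (𝓝 (Real.log (1 / ε))) := by
  have hL : Real.log (1 / ε) = -Real.log ε := by rw [one_div, Real.log_inv]
  have hLpos : 0 < -Real.log ε := by
    have := Real.log_neg hε0 hε1
    linarith
  rw [hL]
  refine tendsto_order.2 ⟨fun a ha => ?_, fun b hb => ?_⟩
  · set s := max 0 ((a + -Real.log ε) / 2) with hs
    have hs0 : 0 ≤ s := le_max_left _ _
    have hs1 : s < -Real.log ε := by
      rw [hs]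
      apply max_lt hLpos
      linarith
    have hs2 : a < s := lt_of_lt_of_le (by linarith) (le_max_right _ _)
    have h1 : ε < Real.exp (-s) := by
      calc ε = Real.exp (Real.log ε) := (Real.exp_log hε0).symm
        _ < Real.exp (-s) := Real.exp_lt_exp.mpr (by linarith)
    filter_upwards [h.le_mix hs0 hε0 h1] with n hn
    rw [lt_div_iff₀ (h.tpos n)]
    exact lt_of_lt_of_le (mul_lt_mul_of_pos_right hs2 (h.tpos n)) hn
  · set s := (b + -Real.log ε) / 2 with hs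
    have hs0 : 0 ≤ s := by rw [hs]; linarith
    have h1 : Real.exp (-s) < ε := by
      calc Real.exp (-s) < Real.exp (Real.log ε) := Real.exp_lt_exp.mpr (by rw [hs]; linarith)
        _ = ε := Real.exp_log hε0
    filter_upwards [h.mix_le hs0 h1] with n hn
    rw [div_lt_iff₀ (h.tpos n)]
    have h2 : s * t n < b * t n := mul_lt_mul_of_pos_right (by rw [hs]; linarith) (h.tpos n)
    linarith [hn.2]

section walk

variable {G : Type} [AddCommGroup G] [Fintype G] [DecidableEq G] {S : Finset G} {R M : ℕ}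
  {w : ℝ} {P : Matrix G G ℝ} {T : ℕ}

/-- lower bound in continuous time -/
theorem Expo.ct_low (h : Expo S R M w) (hM : 1 ≤ M) (hw0 : 0 < w) (hw1 : w < 1)
    (hB : Helper394.Bad S T) (hP : ∀ f : G → ℝ, P.mulVec f = Helper394.U S f) {r : ℝ}
    (hr : 0 ≤ r) :
    (1 - 1 / (M : ℝ)) * (Real.exp (-(r / (1 / (1 - w)))) - (1 / 2) ^ R * Real.exp r) -
      1 / (M : ℝ) ≤ (1 / 2 : ℝ) * ∑ y, |H990R2.CT.H P r 0 y - 1 / (Fintype.card G : ℝ)| := by
  obtain ⟨E, hE, hl⟩ := h.lower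
  have hM' : (1 : ℝ) ≤ M := by exact_mod_cast hM
  have hM1 : 0 ≤ 1 - 1 / (M : ℝ) := by
    rw [sub_nonneg, div_le_one (by linarith)]
    exact hM'
  refine tv_low _ (H990R2.CT.H_row (H990R2.CT.P_row hB hP) r 0) M hM E hE _ ?_
  have h1 := H990R2.CT.H_mulVec_hasSum P r (fun y => if y ∈ E then (1 : ℝ) else 0) 0
  have h2 := H990R2.CT.poisson_hasSum r w
  have h3 := H990R2.CT.poisson_hasSum r 2
  have h4 := (h2.sub (h3.mul_left ((1 / 2 : ℝ) ^ R))).mul_left (1 - 1 / (M : ℝ))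
  have h5 : (1 - 1 / (M : ℝ)) * (Real.exp ((w - 1) * r) -
      (1 / 2 : ℝ) ^ R * Real.exp ((2 - 1) * r)) ≤
      (H990R2.CT.H P r).mulVec (fun y => if y ∈ E then (1 : ℝ) else 0) 0 := by
    refine hasSum_le (fun k => ?_) h4 h1
    have e : (1 - 1 / (M : ℝ)) * (Real.exp (-r) * (r ^ k / k.factorial) * w ^ k -
        (1 / 2 : ℝ) ^ R * (Real.exp (-r) * (r ^ k / k.factorial) * 2 ^ k)) =
        Real.exp (-r) * (r ^ k / k.factorial) *
          ((1 - 1 / (M : ℝ)) * (w ^ k - (1 / 2 : ℝ) ^ R * 2 ^ k)) := by ring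
    rw [e]
    apply mul_le_mul_of_nonneg_left _ (by positivity)
    rw [Helper394.mat_pow hP]
    rcases le_total k R with hkR | hkR
    · refine le_trans ?_ (hl k hkR)
      apply mul_le_mul_of_nonneg_left _ hM1
      have : (0 : ℝ) ≤ (1 / 2) ^ R * 2 ^ k := by positivity
      linarith
    · have h6 : (0 : ℝ) ≤ (Helper394.U S ^ k) (fun z => if z ∈ E then (1 : ℝ) else 0) 0 :=
        Helper394.U_pow_nonneg S k (fun z => by split_ifs <;> norm_num) 0
      refine le_trans ?_ h6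
      apply mul_nonpos_of_nonneg_of_nonpos hM1
      have h7 : (1 : ℝ) ≤ (1 / 2) ^ R * 2 ^ k := by
        calc (1 : ℝ) = (1 / 2) ^ R * 2 ^ R := by rw [← mul_pow]; norm_num
          _ ≤ (1 / 2) ^ R * 2 ^ k := by gcongr; norm_num
      have h8 : w ^ k ≤ 1 := pow_le_one₀ hw0.le hw1.le
      linarith
  have e1 : (w - 1) * r = -(r / (1 / (1 - w))) := by
    rw [div_div_eq_mul_div, div_one]
    ring
  have e2 : ((2 : ℝ) - 1) * r = r := by ring
  rw [e1, e2] at h5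
  exact h5

/-- upper bound in continuous time -/
theorem Expo.ct_up (h : Expo S R M w) (hM : 1 ≤ M) (hw0 : 0 < w) (hw1 : w < 1)
    (hB : Helper394.Bad S T) (hP : ∀ f : G → ℝ, P.mulVec f = Helper394.U S f) {r : ℝ}
    (hr : 0 ≤ r) (x : G) :
    (1 / 2 : ℝ) * ∑ y, |H990R2.CT.H P r x y - 1 / (Fintype.card G : ℝ)| ≤
      1 - (1 - 1 / (M : ℝ)) * (1 - Real.exp (-(r / (1 / (1 - w)))) * (1 / w ^ 2)) := by
  refine tv_le_of_min _ (H990R2.CT.H_row (H990R2.CT.P_row hB hP) r x) _ (fun y => ?_)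
  have hG : (0 : ℝ) < Fintype.card G := by exact_mod_cast Fintype.card_pos
  have h1 := H990R2.CT.mix_ge (β := w) (B := 1 / w ^ 2)
    (c := (1 - 1 / (M : ℝ)) / Fintype.card G) hr
    (H990R2.CT.H_mulVec_hasSum P r (Pi.single y 1) x) (fun k => by
      rw [Helper394.mat_pow hP]
      have h2 := h.up hM hw0 hw1 k (Pi.single y 1) (fun z => by
        rw [Pi.single_apply]; split_ifs <;> norm_num) x
      rw [Finset.sum_pi_single' y (1 : ℝ) univ] at h2
      simp only [Finset.mem_univ, if_true] at h2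
      calc _ = (1 - 1 / (M : ℝ)) * (1 - w ^ k * (1 / w ^ 2)) * (1 / Fintype.card G) := by ring
        _ ≤ _ := h2)
  have h2 : (H990R2.CT.H P r).mulVec (Pi.single y 1) x = H990R2.CT.H P r x y := by simp
  rw [h2] at h1
  have e1 : (w - 1) * r = -(r / (1 / (1 - w))) := by
    rw [div_div_eq_mul_div, div_one]
    ring
  rw [e1] at h1
  calc _ = (1 - 1 / (M : ℝ)) / Fintype.card G *
        (1 - 1 / w ^ 2 * Real.exp (-(r / (1 / (1 - w))))) := by ring
    _ ≤ _ := h1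

end walk

section seq

variable {w : ℕ → ℝ}

theorem csq_of (h1 : ∀ n : ℕ, 1 / (9 * ((n : ℝ) + 64)) ≤ 1 - w n)
    (h2 : ∀ n : ℕ, 1 - w n ≤ 1 / (4 * ((n : ℝ) + 64))) (d : ℕ → ℝ → ℝ)
    (hlow : ∀ (n : ℕ) (r : ℝ), 0 ≤ r →
      (1 - 1 / ((n + 64 : ℕ) : ℝ)) * (Real.exp (-(r / (1 / (1 - w n)))) -
        (1 / 2) ^ ((n + 64) ^ 2) * Real.exp r) - 1 / ((n + 64 : ℕ) : ℝ) ≤ d n r)
    (hup : ∀ (n : ℕ) (r : ℝ), 0 ≤ r → d n r ≤ 1 - (1 - 1 / ((n + 64 : ℕ) : ℝ)) *
      (1 - Real.exp (-(r / (1 / (1 - w n)))) * (1 / w n ^ 2))) :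
    CSq d (fun n => 1 / w n ^ 2) (fun n => 1 / (1 - w n))
      (fun n => (1 / 2) ^ ((n + 64) ^ 2)) (fun n => n + 64) := by
  have hv : ∀ n, 0 < 1 - w n := fun n => by have := w_lt h1 n; linarith
  have hge : ∀ n : ℕ, 4 * ((n : ℝ) + 64) ≤ 1 / (1 - w n) := by
    intro n
    rw [le_div_iff₀ (hv n)]
    have h3 := h2 n
    have hn : (0 : ℝ) < 4 * ((n : ℝ) + 64) := by positivity
    rw [le_div_iff₀ hn] at h3
    linarith
  have hle : ∀ n : ℕ, 1 / (1 - w n) ≤ 9 * ((n : ℝ) + 64) := by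
    intro n
    rw [div_le_iff₀ (hv n)]
    have h3 := h1 n
    have hn : (0 : ℝ) < 9 * ((n : ℝ) + 64) := by positivity
    rw [div_le_iff₀ hn] at h3
    linarith
  refine ⟨hlow, hup, fun n => one_div_pos.mpr (hv n), ?_, ?_, ?_, fun n => by omega,
    fun n => by positivity, fun a => ?_⟩
  · refine tendsto_atTop_mono hge ?_
    apply Tendsto.const_mul_atTop (by norm_num)
    exact tendsto_atTop_add_const_right _ _ tendsto_natCast_atTop_atTop
  · have h3 := ((w_lim h1 h2).pow 2).inv₀ (by norm_num)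
    simpa using h3
  · exact tendsto_add_atTop_nat 64
  · have hexp : Tendsto (fun n : ℕ => Real.exp (-((n : ℝ)))) atTop (𝓝 0) :=
      Real.tendsto_exp_neg_atTop_nhds_zero.comp tendsto_natCast_atTop_atTop
    refine squeeze_zero' (Eventually.of_forall fun n => by positivity) ?_ hexp
    obtain ⟨m, hm⟩ := exists_nat_gt (2 * (9 * |a| + 1))
    filter_upwards [eventually_ge_atTop m] with n hn
    have hn' : (m : ℝ) ≤ n := by exact_mod_cast hn
    have e1 : (1 / 2 : ℝ) ^ ((n + 64) ^ 2) =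
        Real.exp (-((((n + 64) ^ 2 : ℕ) : ℝ) * Real.log 2)) := by
      rw [Real.exp_neg, ← Real.log_pow, Real.exp_log (by positivity), one_div, inv_pow]
    rw [e1, ← Real.exp_add]
    apply Real.exp_le_exp.mpr
    have h4 : a * (1 / (1 - w n)) ≤ |a| * (9 * ((n : ℝ) + 64)) := by
      calc a * (1 / (1 - w n)) ≤ |a| * (1 / (1 - w n)) :=
            mul_le_mul_of_nonneg_right (le_abs_self a) (one_div_pos.mpr (hv n)).le
        _ ≤ |a| * (9 * ((n : ℝ) + 64)) := mul_le_mul_of_nonneg_left (hle n) (abs_nonneg a)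
    have h5 := Real.log_two_gt_d9
    push_cast
    have hn0 : (0 : ℝ) ≤ n := Nat.cast_nonneg n
    have h6 : (1 / 2 : ℝ) * ((n : ℝ) + 64) ^ 2 ≤ ((n : ℝ) + 64) ^ 2 * Real.log 2 := by
      nlinarith [sq_nonneg ((n : ℝ) + 64)]
    have h7 : (9 * |a| + 1) * ((n : ℝ) + 64) ≤ (1 / 2 : ℝ) * ((n : ℝ) + 64) ^ 2 := by
      have h8 : 9 * |a| + 1 ≤ (1 / 2 : ℝ) * ((n : ℝ) + 64) := by linarith
      calc (9 * |a| + 1) * ((n : ℝ) + 64) ≤ ((1 / 2 : ℝ) * ((n : ℝ) + 64)) * ((n : ℝ) + 64) :=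
            mul_le_mul_of_nonneg_right h8 (by positivity)
        _ = _ := by ring
    linarith

end seq

end

end Pool.Agent.Y307.Prof
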