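import Pool.Agent.Helper394.Circ

/-!
Step sets of finite abelian groups whose simple random walk has an exponential profile.
-/

set_option autoImplicit false

open Finset Pool.Agent.Helper394

namespace Pool.Agent.Y307.Prof

noncomputable section

/-- Step sets with an exponential profile: far from uniform with weight `w ^ j` up to time `R`,
and minorised by `1 - w ^ k` times the uniform distribution at time `k + 2`. -/
structure Expo {G : Type*} [AddCommGroup G] [Fintype G] [DecidableEq G] (S : Finset G)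
    (R Q : ℕ) (w : ℝ) : Prop where
  zero : (0 : G) ∉ S
  neg : ∀ s ∈ S, -s ∈ S
  char : ∀ χ : AddChar G ℂ, χ ≠ 1 → ‖∑ s ∈ S, χ s‖ ≤ (3 / 4 : ℝ) * S.card
  lower : ∃ E : Finset G, (Q : ℝ) * (E.card : ℝ) ≤ Fintype.card G ∧
    ∀ j ≤ R, (1 - 1 / (Q : ℝ)) * w ^ j ≤ (U S ^ j) (fun x => if x ∈ E then (1 : ℝ) else 0) 0
  upper : ∀ k : ℕ, ∀ f : G → ℝ, (∀ x, 0 ≤ f x) → ∀ x,
    (1 - 1 / (Q : ℝ)) * (1 - w ^ k) * ((∑ y, f y) / Fintype.card G) ≤ (U S ^ (k + 2)) f x

theorem Expo.bad {G : Type*} [AddCommGroup G] [Fintype G] [DecidableEq G] {S : Finset G}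
    {R Q : ℕ} {w : ℝ} (h : Expo S R Q w) {T : ℕ} (hT : 64 ≤ T) (hTR : T ≤ R) (hQ : 64 ≤ Q)
    (hlo : 1 / (9 * (T : ℝ)) ≤ 1 - w) (hhi : 1 - w ≤ 1 / (4 * (T : ℝ))) : Bad S T := by
  have hT' : (64 : ℝ) ≤ T := by exact_mod_cast hT
  have hQ' : (64 : ℝ) ≤ Q := by exact_mod_cast hQ
  have hQ1 : 1 / (Q : ℝ) ≤ 1 / 64 := one_div_le_one_div_of_le (by norm_num) hQ'
  have hsmall : 1 / (4 * (T : ℝ)) ≤ 1 / 256 := by
    apply one_div_le_one_div_of_le (by norm_num)
    linarith
  have hw : w = 1 - (1 - w) := by ring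
  have hv0 : 0 < 1 - w := lt_of_lt_of_le (by positivity) hlo
  refine ⟨h.zero, h.neg, h.char, ?_, ?_⟩
  · obtain ⟨E, hE, hl⟩ := h.lower
    refine ⟨E, ?_, fun j hj => ?_⟩
    · have h0 : (0 : ℝ) ≤ E.card := Nat.cast_nonneg _
      have h1 : (8 : ℝ) * E.card ≤ Q * E.card := mul_le_mul_of_nonneg_right (by linarith) h0
      exact h1.trans hE
    · refine le_trans ?_ (hl j (hj.trans hTR))
      have h5 : (1 : ℝ) + j * (-(1 - w)) ≤ (1 + (-(1 - w))) ^ j := by
        apply one_add_mul_le_pow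
        linarith
      have h6 : (j : ℝ) ≤ T := by exact_mod_cast hj
      have h7 : (j : ℝ) * (1 - w) ≤ 1 / 4 := by
        calc (j : ℝ) * (1 - w) ≤ T * (1 / (4 * T)) := mul_le_mul h6 hhi hv0.le (by positivity)
          _ = 1 / 4 := by field_simp
      have h8 : (3 / 4 : ℝ) ≤ w ^ j := by
        have e : (1 + (-(1 - w))) = w := by ring
        rw [e] at h5
        linarith
      nlinarith
  · intro n hn f hf x
    have hn2 : 2 ≤ n := by omega
    obtain ⟨k, rfl⟩ := Nat.exists_eq_add_of_le' hn2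
    refine le_trans ?_ (h.upper k f hf x)
    have hmn0 : 0 ≤ (∑ y, f y) / Fintype.card G :=
      div_nonneg (Finset.sum_nonneg fun _ _ => hf _) (by positivity)
    apply mul_le_mul_of_nonneg_right _ hmn0
    have h4 : (1 / 200 : ℝ) ≤ 1 - w ^ k := by
      have h6 := bern_inv (1 - w) hv0.le (by linarith) k
      rw [← hw] at h6
      have h7 : (1 / 150 : ℝ) ≤ k * (1 - w) := by
        have h8 : (T : ℝ) ≤ 8 * ((k + 2 : ℕ) : ℝ) := by exact_mod_cast hn
        push_cast at h8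
        have h9 : (T : ℝ) / 16 ≤ k := by linarith
        calc (1 / 150 : ℝ) ≤ (T / 16) * (1 / (9 * T)) := by
              field_simp; norm_num
          _ ≤ k * (1 - w) := mul_le_mul h9 hlo (by positivity) (by positivity)
      have h10 : 1 / (1 + k * (1 - w)) ≤ 1 / (1 + 1 / 150) := by
        apply one_div_le_one_div_of_le (by norm_num)
        linarith
      have h11 : (1 : ℝ) / (1 + 1 / 150) ≤ 1 - 1 / 200 := by norm_num
      linarith
    nlinarith

section
variable {L K : Type*} [AddCommGroup L] [AddCommGroup K] [Fintype L] [Fintype K]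
  [DecidableEq L] [DecidableEq K]

theorem fibre_two (A : Finset L) (b : K) (f : L × K → ℝ) (hf : ∀ x, 0 ≤ f x) (k : K)
    (hK : 3 ≤ Fintype.card K) :
    (w1 A b ^ 2 * (1 - 1 / ((Fintype.card K : ℝ) - 1) ^ 2) *
        ((∑ x, f x) / Fintype.card (L × K))) * Fintype.card L ≤
      ∑ l, (U (blow A b) ^ 2) f (l, k) := by
  have hc := blow_card_pos A b
  have hKr : (3 : ℝ) ≤ Fintype.card K := by exact_mod_cast hK
  have hL : (0 : ℝ) < Fintype.card L := by exact_mod_cast Fintype.card_pos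
  rw [U_pow_succ_apply, pow_one]
  have h1 := fibre_step A b (U (blow A b) f) (U_nonneg _ hf) k
  refine le_trans ?_ h1
  have h2 : ∀ u ∈ (univ : Finset K).erase b,
      (A.card : ℝ) / (blow A b).card *
        ∑ v ∈ (univ : Finset K).erase b, ∑ l, f (l, k + u + v) ≤
      ∑ l, U (blow A b) f (l, k + u) := fun u _ => fibre_step A b f hf (k + u)
  have h3 := Finset.sum_le_sum h2
  rw [← Finset.mul_sum] at h3
  set F : K → ℝ := fun k => ∑ l, f (l, k) with hF
  have hF0 : ∀ k, 0 ≤ F k := fun k => Finset.sum_nonneg fun _ _ => hf _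
  have hFtot : ∑ k, F k = ∑ x, f x := by
    rw [Fintype.sum_prod_type, Finset.sum_comm]
  have h4 : ((Fintype.card K : ℝ) - 2) * ∑ k, F k ≤
      ∑ u ∈ (univ : Finset K).erase b, ∑ v ∈ (univ : Finset K).erase b, F (k + u + v) := by
    have e1 : ∀ c : K, ∑ v ∈ (univ : Finset K).erase b, F (c + v) = ∑ k, F k - F (c + b) := by
      intro c
      have := Finset.sum_erase_eq_sub (f := fun v => F (c + v)) (Finset.mem_univ b)
      rw [this]
      have := Equiv.sum_comp (Equiv.addLeft c) F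
      simp only [Equiv.coe_addLeft] at this
      rw [this]
    simp only [e1]
    rw [Finset.sum_sub_distrib]
    have e2 : ∑ u ∈ (univ : Finset K).erase b, F (k + u + b) = ∑ k, F k - F (k + b + b) := by
      have e3 : ∀ u ∈ (univ : Finset K).erase b, F (k + u + b) = F ((k + b) + u) := by
        intro u _
        congr 1
        abel
      rw [Finset.sum_congr rfl e3, e1]
    rw [e2]
    have hK1 : 1 ≤ Fintype.card K := by omega
    simp only [Finset.sum_const, Finset.card_erase_of_mem (Finset.mem_univ b),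
        Finset.card_univ, nsmul_eq_mul]
    push_cast [Nat.cast_sub hK1]
    have := hF0 (k + b + b)
    linarith
  have h5 : (0 : ℝ) ≤ (A.card : ℝ) / (blow A b).card := by positivity
  have h6 := mul_le_mul_of_nonneg_left h4 h5
  have h7 := mul_le_mul_of_nonneg_left (h6.trans h3) h5
  refine le_trans (le_of_eq ?_) h7
  rw [hFtot, Fintype.card_prod]
  set X := ∑ x, f x with hX
  have hw : w1 A b = (A.card : ℝ) / (blow A b).card * ((Fintype.card K : ℝ) - 1) := by
    rw [w1]; ring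
  rw [hw]
  set α := (A.card : ℝ) / (blow A b).card
  set κ := (Fintype.card K : ℝ)
  have hκ : κ - 1 ≠ 0 := by linarith
  have hκ0 : κ ≠ 0 := by linarith
  have hL0 : (Fintype.card L : ℝ) ≠ 0 := hL.ne'
  push_cast
  have key : (κ - 1) ^ 2 * (1 - 1 / (κ - 1) ^ 2) = κ * (κ - 2) := by
    field_simp
    ring
  calc (α * (κ - 1)) ^ 2 * (1 - 1 / (κ - 1) ^ 2) * (X / (↑(Fintype.card L) * κ)) *
        ↑(Fintype.card L)
      = α ^ 2 * X * ((κ - 1) ^ 2 * (1 - 1 / (κ - 1) ^ 2)) / κ := by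
        field_simp
    _ = α * (α * ((κ - 2) * X)) := by
        rw [key]
        field_simp

theorem prof_blow (A : Finset L) (b : K) (T R Q : ℕ) (hT : 64 ≤ T) (hQ : 1 ≤ Q) (hQT : Q ≤ T)
    (hA0 : (0 : L) ∉ A)
    (hAneg : ∀ s ∈ A, -s ∈ A) (hb : b ≠ 0) (hb2 : -b = b) (hK : T ≤ Fintype.card K)
    (hchar : ∀ χ : AddChar L ℂ, χ ≠ 1 → ‖∑ s ∈ A, χ s‖ ≤ (2 / 3 : ℝ) * A.card)
    (E : Finset L) (hE : (Q : ℝ) * (E.card : ℝ) ≤ Fintype.card L)
    (hlow : ∀ n ≤ R, (1 - 1 / (Q : ℝ)) ≤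
      (U A ^ n) (fun x => if x ∈ E then (1 : ℝ) else 0) 0)
    (hw_lo : 4 * (T : ℝ) * Fintype.card L ≤ A.card * ((Fintype.card K : ℝ) - 1))
    (hw_hi : A.card * ((Fintype.card K : ℝ) - 1) ≤ (8 * T + 1) * Fintype.card L) :
    Expo (blow A b) R Q (w1 A b) ∧ 1 / (9 * (T : ℝ)) ≤ 1 - w1 A b ∧
      1 - w1 A b ≤ 1 / (4 * (T : ℝ)) := by
  have hT' : (64 : ℝ) ≤ T := by exact_mod_cast hT
  have hL : (0 : ℝ) < Fintype.card L := by exact_mod_cast Fintype.card_pos
  have hc := blow_card_pos A b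
  have hceq := card_blow_real A b
  have hKT : (T : ℝ) ≤ Fintype.card K := by exact_mod_cast hK
  have hKr : (3 : ℝ) ≤ Fintype.card K := by linarith
  have hw2hi : w2 A b ≤ 1 / (4 * T) := by
    rw [w2, div_le_div_iff₀ hc (by positivity), hceq]
    nlinarith
  have hw2lo : 1 / (9 * (T : ℝ)) ≤ w2 A b := by
    rw [w2, div_le_div_iff₀ (by positivity) hc, hceq]
    nlinarith
  have hw := w1_add_w2 A b
  have hw1n := w1_nonneg A b
  have hQr : (1 : ℝ) ≤ Q := by exact_mod_cast hQ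
  have hQTr : (Q : ℝ) ≤ T := by exact_mod_cast hQT
  have hQinv : 1 / (T : ℝ) ≤ 1 / (Q : ℝ) := one_div_le_one_div_of_le (by linarith) hQTr
  have hQ1 : 0 ≤ 1 - 1 / (Q : ℝ) := by
    rw [sub_nonneg, div_le_one (by linarith)]
    exact hQr
  refine ⟨⟨?_, ?_, ?_, ?_, ?_⟩, by linarith, by linarith⟩
  · -- zero
    rw [blow, Finset.mem_union, Finset.mem_product, Finset.mem_product]
    simp only [Prod.fst_zero, Prod.snd_zero, Finset.mem_singleton]
    rintro (⟨h, _⟩ | ⟨_, h⟩)
    · exact hA0 h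
    · exact hb h.symm
  · -- neg
    intro s hs
    rw [blow, Finset.mem_union, Finset.mem_product, Finset.mem_product] at hs ⊢
    rcases hs with ⟨h1, h2⟩ | ⟨h1, h2⟩
    · left
      refine ⟨hAneg _ h1, ?_⟩
      rw [Finset.mem_erase] at h2 ⊢
      refine ⟨?_, Finset.mem_univ _⟩
      intro h3
      apply h2.1
      have : -(-s.2) = -b := by
        have h4 : -s.2 = b := h3
        rw [h4]
      rw [neg_neg, hb2] at this
      exact this
    · right
      refine ⟨Finset.mem_univ _, ?_⟩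
      rw [Finset.mem_singleton] at h2 ⊢
      rw [Prod.snd_neg, h2, hb2]
  · -- char
    intro χ hχ
    rw [sum_blow]
    let χ1 : AddChar L ℂ := χ.compAddMonoidHom (AddMonoidHom.inl L K)
    let χ2 : AddChar K ℂ := χ.compAddMonoidHom (AddMonoidHom.inr L K)
    have hsplit : ∀ l k, χ (l, k) = χ1 l * χ2 k := by
      intro l k
      have : ((l, k) : L × K) = (l, 0) + (0, k) := by simp
      rw [this, AddChar.map_add_eq_mul]
      rfl
    have e1 : (∑ a ∈ A, ∑ u ∈ (univ : Finset K).erase b, χ (a, u)) =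
        (∑ a ∈ A, χ1 a) * ∑ u ∈ (univ : Finset K).erase b, χ2 u := by
      rw [Finset.sum_mul_sum]
      refine Finset.sum_congr rfl fun a _ => Finset.sum_congr rfl fun u _ => hsplit a u
    have e2 : ∑ l, χ (l, b) = (∑ l, χ1 l) * χ2 b := by
      rw [Finset.sum_mul]
      exact Finset.sum_congr rfl fun l _ => hsplit l b
    rw [e1, e2, AddChar.sum_eq_ite]
    have hAcard : (0 : ℝ) ≤ A.card := by positivity
    by_cases h1 : χ1 = 0
    · -- trivial on L
      have h2 : χ2 ≠ 0 := by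
        intro h2
        apply hχ
        ext ⟨l, k⟩
        rw [hsplit, h1, h2]
        simp
      rw [if_pos h1, Finset.sum_erase_eq_sub (Finset.mem_univ _), AddChar.sum_eq_ite,
        if_neg h2]
      have e3 : (∑ a ∈ A, χ1 a) = (A.card : ℂ) := by rw [h1]; simp
      rw [e3]
      have e4 : (A.card : ℂ) * (0 - χ2 b) + (Fintype.card L : ℂ) * χ2 b =
          (((Fintype.card L : ℝ) - A.card : ℝ) : ℂ) * χ2 b := by
        push_cast; ring
      rw [e4, norm_mul, norm_char_le, mul_one, Complex.norm_real, Real.norm_eq_abs]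
      have hAL : (A.card : ℝ) ≤ Fintype.card L := by exact_mod_cast Finset.card_le_univ A
      rw [abs_of_nonneg (by linarith)]
      have h5 : (Fintype.card L : ℝ) = w2 A b * (blow A b).card := by
        rw [w2]; field_simp
      have h6 : w2 A b ≤ 3 / 4 := by
        refine hw2hi.trans ?_
        rw [div_le_iff₀ (by positivity)]
        linarith
      nlinarith
    · rw [if_neg h1, zero_mul, add_zero, norm_mul]
      have hK1 : 1 ≤ Fintype.card K := by omega
      have h2 : ‖∑ u ∈ (univ : Finset K).erase b, χ2 u‖ ≤ (Fintype.card K : ℝ) - 1 := by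
        refine (norm_char_sum_le _ _).trans ?_
        rw [Finset.card_erase_of_mem (Finset.mem_univ _), Finset.card_univ]
        push_cast [Nat.cast_sub hK1]
        linarith
      calc ‖∑ a ∈ A, χ1 a‖ * ‖∑ u ∈ (univ : Finset K).erase b, χ2 u‖
          ≤ ((2 / 3 : ℝ) * A.card) * ((Fintype.card K : ℝ) - 1) :=
            mul_le_mul (hchar χ1 h1) h2 (norm_nonneg _) (by positivity)
        _ ≤ (3 / 4 : ℝ) * (blow A b).card := by
            rw [hceq]
            have : 0 ≤ (A.card : ℝ) * ((Fintype.card K : ℝ) - 1) :=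
              mul_nonneg hAcard (by linarith)
            nlinarith
  · -- lower
    refine ⟨E ×ˢ univ, ?_, ?_⟩
    · rw [Finset.card_product, Fintype.card_prod, Finset.card_univ]
      push_cast
      nlinarith
    · intro j hj
      have e1 : (fun x : L × K => if x ∈ E ×ˢ (univ : Finset K) then (1 : ℝ) else 0) =
          fun x => (fun l => if l ∈ E then (1 : ℝ) else 0) x.1 := by
        ext x
        simp
      rw [e1]
      have h1 := U_blow_fst_ge A b (fun l => if l ∈ E then (1 : ℝ) else 0)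
        (fun l => by split_ifs <;> norm_num) j (0 : L × K)
      refine le_trans ?_ h1
      have h2 := hlow j hj
      have h8 : (U A ^ j) (fun l => if l ∈ E then (1 : ℝ) else 0) (0 : L × K).1 =
        (U A ^ j) (fun l => if l ∈ E then (1 : ℝ) else 0) 0 := rfl
      rw [h8, mul_comm]
      exact mul_le_mul_of_nonneg_left h2 (pow_nonneg hw1n j)
  · -- upper
    intro k f hf x
    set mn : ℝ := (∑ y, f y) / Fintype.card (L × K) with hmn
    have hmn0 : 0 ≤ mn := by
      apply div_nonneg (Finset.sum_nonneg fun _ _ => hf _) (by positivity)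
    have e1 : (U (blow A b) ^ (k + 2)) f = (U (blow A b) ^ k) ((U (blow A b) ^ 2) f) := by
      rw [pow_add]; rfl
    rw [e1]
    set c : ℝ := w1 A b ^ 2 * (1 - 1 / ((Fintype.card K : ℝ) - 1) ^ 2) with hcdef
    have h1 : ∀ κ : K, (c * mn) * Fintype.card L ≤
        ∑ l, ((U (blow A b) ^ 2) f) (l, κ) := fun κ => fibre_two A b f hf κ (by omega)
    have h2 := U_blow_ge A b ((U (blow A b) ^ 2) f) (U_pow_nonneg _ _ hf) _ h1 k x
    refine le_trans ?_ h2
    have h3 : 1 - 1 / (Q : ℝ) ≤ c := by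
      have h4 : 1 / ((Fintype.card K : ℝ) - 1) ^ 2 ≤ 1 / (2 * (T : ℝ)) := by
        apply one_div_le_one_div_of_le (by positivity)
        nlinarith
      have h5 : 1 - 1 / (2 * (T : ℝ)) ≤ w1 A b ^ 2 := by
        have h6 : w1 A b = 1 - w2 A b := by linarith
        have h7 : 2 * w2 A b ≤ 1 / (2 * (T : ℝ)) := by
          have e : 1 / (2 * (T : ℝ)) = 2 * (1 / (4 * T)) := by field_simp; norm_num
          rw [e]; linarith
        rw [h6]
        have e3 : 0 ≤ (w2 A b) ^ 2 := sq_nonneg _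
        have e4 : (1 - w2 A b) ^ 2 = 1 - 2 * w2 A b + (w2 A b) ^ 2 := by ring
        rw [e4]
        linarith
      have h8 : 0 ≤ 1 - 1 / (2 * (T : ℝ)) := by
        rw [sub_nonneg, div_le_one (by positivity)]
        linarith
      have h9 : (1 - 1 / (2 * (T : ℝ))) * (1 - 1 / (2 * (T : ℝ))) ≤ c := by
        rw [hcdef]
        apply mul_le_mul h5 (by linarith) h8 (by positivity)
      have h10 : 1 - 1 / (T : ℝ) ≤ (1 - 1 / (2 * (T : ℝ))) * (1 - 1 / (2 * (T : ℝ))) := by
        have e : 1 / (T : ℝ) = 2 * (1 / (2 * (T : ℝ))) := by field_simp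
        have e2 : (1 - 1 / (2 * (T : ℝ))) * (1 - 1 / (2 * (T : ℝ))) =
            1 - 2 * (1 / (2 * (T : ℝ))) + (1 / (2 * (T : ℝ))) ^ 2 := by ring
        rw [e2, e]
        have e3 : 0 ≤ (1 / (2 * (T : ℝ))) ^ 2 := sq_nonneg _
        linarith
      exact (sub_le_sub_left hQinv 1).trans (h10.trans h9)
    have h11 : 0 ≤ 1 - w1 A b ^ k := by
      have : w1 A b ≤ 1 := by linarith [w2_pos A b]
      have := pow_le_one₀ hw1n this (n := k)
      linarith
    calc (1 - 1 / (Q : ℝ)) * (1 - w1 A b ^ k) * mn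
        ≤ c * (1 - w1 A b ^ k) * mn := by
          apply mul_le_mul_of_nonneg_right _ hmn0
          exact mul_le_mul_of_nonneg_right h3 h11
      _ = (1 - w1 A b ^ k) * (c * mn) := by ring

end

theorem Expo.map {G G' : Type*} [AddCommGroup G] [AddCommGroup G'] [Fintype G] [Fintype G']
    [DecidableEq G] [DecidableEq G'] (e : G ≃+ G') {S : Finset G} {R Q : ℕ} {w : ℝ}
    (h : Expo S R Q w) : Expo (S.map e.toEquiv.toEmbedding) R Q w := by
  have hcard : Fintype.card G' = Fintype.card G := (Fintype.card_congr e.toEquiv).symm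
  refine ⟨?_, ?_, ?_, ?_, ?_⟩
  · intro h0
    rw [Finset.mem_map] at h0
    obtain ⟨s, hs, hs0⟩ := h0
    have : s = 0 := by
      apply e.injective
      rw [map_zero]
      exact hs0
    rw [this] at hs
    exact h.zero hs
  · intro s hs
    rw [Finset.mem_map] at hs ⊢
    obtain ⟨t, ht, rfl⟩ := hs
    exact ⟨-t, h.neg t ht, by simp⟩
  · intro χ hχ
    rw [Finset.sum_map, Finset.card_map]
    have := h.char (χ.compAddMonoidHom e.toAddMonoidHom) (by
      intro hcon
      apply hχ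
      ext y
      have h1 : (χ.compAddMonoidHom e.toAddMonoidHom) (e.symm y) = 1 := by rw [hcon]; simp
      rw [AddChar.compAddMonoidHom_apply] at h1
      simpa using h1)
    exact this
  · obtain ⟨E, hE, hlow⟩ := h.lower
    refine ⟨E.map e.toEquiv.toEmbedding, ?_, ?_⟩
    · rw [Finset.card_map, hcard]; exact hE
    · intro j hj
      have h1 := U_pow_map e S j
        (fun x => if x ∈ E.map e.toEquiv.toEmbedding then (1 : ℝ) else 0) 0
      rw [map_zero] at h1
      rw [h1]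
      have h2 : (fun y => if e y ∈ E.map e.toEquiv.toEmbedding then (1 : ℝ) else 0) =
          fun y => if y ∈ E then (1 : ℝ) else 0 := by
        ext y
        congr 1
        rw [Finset.mem_map]
        apply propext
        constructor
        · rintro ⟨z, hz, hzy⟩
          have : z = y := e.injective hzy
          rwa [← this]
        · intro hy
          exact ⟨y, hy, rfl⟩
      rw [h2]
      exact hlow j hj
  · intro k f hf x
    obtain ⟨y, rfl⟩ := e.surjective x
    rw [U_pow_map]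
    have h1 := h.upper k (fun y => f (e y)) (fun _ => hf _) y
    have h2 : ∑ y, f (e y) = ∑ y, f y := Equiv.sum_comp e.toEquiv f
    rw [h2] at h1
    rw [hcard]
    exact h1

section base

variable {ι : Type*} [Fintype ι] [DecidableEq ι]
variable {X Y : ι → Type*} [∀ i, AddCommGroup (X i)] [∀ i, AddCommGroup (Y i)]
  [∀ i, Fintype (X i)] [∀ i, Fintype (Y i)] [∀ i, DecidableEq (X i)] [∀ i, DecidableEq (Y i)]

theorem base_lower' [Nonempty ι] (hXY : ∀ i, Fintype.card (X i) < 2 * Fintype.card (Y i))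
    (h3 : ∀ i, 3 ≤ Fintype.card (X i)) (n R Q : ℕ) (hQ : 1 ≤ Q) (hn : n ≤ R)
    (hι : Q * 3 ^ R ≤ Fintype.card ι) :
    (1 - 1 / (Q : ℝ)) ≤ (U (baseA X Y) ^ n) (fun l => if l ∈ baseE X Y then (1 : ℝ) else 0) 0 := by
  have hQr : (1 : ℝ) ≤ Q := by exact_mod_cast hQ
  have hne : ∀ i, (cross (X i) (Y i)).Nonempty := by
    intro i
    rw [← Finset.card_pos]
    have h1 : (3 : ℝ) ≤ Fintype.card (X i) := by exact_mod_cast h3 i
    have h2 : (Fintype.card (X i) : ℝ) + 1 ≤ 2 * Fintype.card (Y i) := by exact_mod_cast hXY i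
    have : (0 : ℝ) < (cross (X i) (Y i)).card := by
      rw [card_cross]
      linarith
    exact_mod_cast this
  have hAne : (baseA X Y).Nonempty := Fintype.piFinset_nonempty.mpr hne
  have e1 : (fun l => if l ∈ baseE X Y then (1 : ℝ) else 0) =
      (fun _ => (1 : ℝ)) - (fun l => ∏ i, (1 - if (l i).1 = 0 then (1 : ℝ) else 0)) := by
    ext l
    rw [ind_baseE]
    rfl
  rw [e1, map_sub, U_pow_const _ hAne]
  have e2 := U_pow_prod (fun i => cross (X i) (Y i))
    (fun i (g : X i × Y i) => (1 - if g.1 = 0 then (1 : ℝ) else 0)) n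
  rw [Pi.sub_apply]
  rw [baseA, e2]
  have e3 : ∀ i, (U (cross (X i) (Y i)) ^ n)
      (fun (g : X i × Y i) => (1 - if g.1 = 0 then (1 : ℝ) else 0)) ((0 : ∀ i, X i × Y i) i) ≤
      1 - (1 / 3 : ℝ) ^ R := by
    intro i
    have e4 : (fun (g : X i × Y i) => (1 - if g.1 = 0 then (1 : ℝ) else 0)) =
      (fun _ => (1 : ℝ)) - (fun g => if g.1 = 0 then (1 : ℝ) else 0) := by
      ext l; rfl
    rw [e4, map_sub, U_pow_const _ (hne i), Pi.sub_apply]
    have := cross_U_pow (X := X i) (Y := Y i) (hXY i) (h3 i) n 0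
    have h5 : (1 / 3 : ℝ) ^ R ≤ (1 / 3 : ℝ) ^ n :=
      pow_le_pow_of_le_one (by norm_num) (by norm_num) hn
    have h6 : ((0 : ∀ i, X i × Y i) i) = (0, 0) := rfl
    rw [h6]
    linarith
  have e5 : ∏ i, (U (cross (X i) (Y i)) ^ n)
      (fun (g : X i × Y i) => (1 - if g.1 = 0 then (1 : ℝ) else 0)) ((0 : ∀ i, X i × Y i) i) ≤
      (1 - (1 / 3 : ℝ) ^ R) ^ (Fintype.card ι) := by
    calc _ ≤ ∏ _i : ι, (1 - (1 / 3 : ℝ) ^ R) := by
          refine Finset.prod_le_prod (fun i _ => ?_) (fun i _ => e3 i)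
          apply U_pow_nonneg
          intro x
          split_ifs <;> norm_num
      _ = _ := by simp
  have h7 : (1 / 3 : ℝ) ^ R ≤ 1 := pow_le_one₀ (by norm_num) (by norm_num)
  have h8 := bern_inv ((1 / 3 : ℝ) ^ R) (by positivity) h7 (Fintype.card ι)
  have h9 : (Q : ℝ) ≤ (Fintype.card ι) * (1 / 3 : ℝ) ^ R := by
    have : (Q * 3 ^ R : ℝ) ≤ Fintype.card ι := by exact_mod_cast hι
    calc (Q : ℝ) = (Q * 3 ^ R) * (1 / 3) ^ R := by
          rw [mul_assoc, ← mul_pow]; norm_num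
      _ ≤ _ := by gcongr
  have h10 : 1 / (1 + (Fintype.card ι) * (1 / 3 : ℝ) ^ R) ≤ 1 / (Q : ℝ) := by
    apply one_div_le_one_div_of_le (by linarith)
    linarith
  linarith

theorem base_card' (Q : ℕ) (hQ : 1 ≤ Q) (hX : ∀ i, Q * Fintype.card ι ≤ Fintype.card (X i))
    [Nonempty ι] :
    (Q : ℝ) * ((baseE X Y).card : ℝ) ≤ Fintype.card (∀ i, X i × Y i) := by
  have hQr : (1 : ℝ) ≤ Q := by exact_mod_cast hQ
  have h1 : ((baseE X Y).card : ℝ) = ∑ l, (if l ∈ baseE X Y then (1 : ℝ) else 0) := by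
    simp
  rw [h1]
  simp only [ind_baseE]
  rw [Finset.sum_sub_distrib]
  have h2 : ∑ l : (∀ i, X i × Y i), ∏ i, (1 - if (l i).1 = 0 then (1 : ℝ) else 0) =
      ∏ i, ∑ g : X i × Y i, (1 - if g.1 = 0 then (1 : ℝ) else 0) := by
    rw [Finset.prod_univ_sum, Fintype.piFinset_univ]
  rw [h2]
  have h3 : ∀ i, ∑ g : X i × Y i, (1 - if g.1 = 0 then (1 : ℝ) else 0) =
      (1 - 1 / (Fintype.card (X i) : ℝ)) * (Fintype.card (X i × Y i) : ℝ) := by
    intro i
    rw [Finset.sum_sub_distrib]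
    have e0 : ∑ g : X i × Y i, (if g.1 = 0 then (1 : ℝ) else 0) = Fintype.card (Y i) := by
      rw [Fintype.sum_prod_type, Finset.sum_comm]
      simp
    rw [e0]
    simp only [Finset.sum_const, Finset.card_univ, nsmul_eq_mul, mul_one, Fintype.card_prod]
    have : (0 : ℝ) < Fintype.card (X i) := by exact_mod_cast Fintype.card_pos
    push_cast
    field_simp
  simp only [h3]
  rw [Finset.prod_mul_distrib]
  have h4 : (∏ i, (Fintype.card (X i × Y i) : ℝ)) = Fintype.card (∀ i, X i × Y i) := by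
    rw [Fintype.card_pi]; push_cast; rfl
  rw [h4]
  have hr : (0 : ℝ) < Fintype.card ι := by exact_mod_cast Fintype.card_pos
  have hr1 : (1 : ℝ) ≤ Fintype.card ι := by exact_mod_cast Fintype.card_pos
  have hsm : 1 / ((Q : ℝ) * (Fintype.card ι : ℝ)) ≤ 1 := by
    rw [div_le_one (by positivity)]
    nlinarith
  have h5 : (1 - 1 / (Q : ℝ)) ≤ ∏ i, (1 - 1 / (Fintype.card (X i) : ℝ)) := by
    calc (1 - 1 / (Q : ℝ)) = 1 + (Fintype.card ι) * (-(1 / ((Q : ℝ) * (Fintype.card ι : ℝ)))) := by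
          field_simp; ring
      _ ≤ (1 + (-(1 / ((Q : ℝ) * (Fintype.card ι : ℝ))))) ^ (Fintype.card ι) := by
          apply one_add_mul_le_pow
          linarith
      _ = ∏ _i : ι, (1 - (1 / ((Q : ℝ) * (Fintype.card ι : ℝ)))) := by
          simp [sub_eq_add_neg]
      _ ≤ _ := by
          refine Finset.prod_le_prod (fun i _ => ?_) (fun i _ => ?_)
          · linarith
          · have h6 : ((Q : ℝ) * (Fintype.card ι : ℝ)) ≤ Fintype.card (X i) := by
              exact_mod_cast hX i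
            have := one_div_le_one_div_of_le (by positivity) h6
            linarith
  have h6 : (0 : ℝ) ≤ Fintype.card (∀ i, X i × Y i) := by positivity
  have h7 : ∑ _l : (∀ i, X i × Y i), (1 : ℝ) = Fintype.card (∀ i, X i × Y i) := by simp
  rw [h7]
  set p : ℝ := ∏ i, (1 - 1 / (Fintype.card (X i) : ℝ)) with hp
  set C : ℝ := (Fintype.card (∀ i, X i × Y i) : ℝ) with hC
  have h8 : (Q : ℝ) * (1 - p) ≤ 1 := by
    have h9 : 1 - p ≤ 1 / (Q : ℝ) := by linarith
    calc (Q : ℝ) * (1 - p) ≤ Q * (1 / (Q : ℝ)) := mul_le_mul_of_nonneg_left h9 (by linarith)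
      _ = 1 := by field_simp
  calc (Q : ℝ) * (C - p * C) = ((Q : ℝ) * (1 - p)) * C := by ring
    _ ≤ 1 * C := mul_le_mul_of_nonneg_right h8 h6
    _ = C := one_mul _

theorem exists_pow_prof [Nonempty ι] (T R Q : ℕ) (hT : 64 ≤ T) (hQ : 2 ≤ Q) (hQT : Q ≤ T)
    (hXY : ∀ i, Fintype.card (X i) < 2 * Fintype.card (Y i))
    (hYX : ∀ i, Fintype.card (Y i) ≤ 2 * Fintype.card (X i))
    (hX : ∀ i, Q * Fintype.card ι ≤ Fintype.card (X i)) (h3 : ∀ i, 3 ≤ Fintype.card (X i))
    (hι : Q * 3 ^ R ≤ Fintype.card ι) (hR : 1 ≤ R) :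
    ∃ (m : ℕ) (_ : NeZero (2 ^ m : ℕ)) (b : ZMod (2 ^ m)) (w : ℝ), T ≤ 2 ^ m ∧
      1 / (9 * (T : ℝ)) ≤ 1 - w ∧ 1 - w ≤ 1 / (4 * (T : ℝ)) ∧
      Expo (blow (baseA X Y) b) R Q w := by
  classical
  have hιpos : 1 ≤ Fintype.card ι := Fintype.card_pos
  let A : Finset (∀ i, X i × Y i) := baseA X Y
  let E : Finset (∀ i, X i × Y i) := baseE X Y
  have hA0 : (0 : ∀ i, X i × Y i) ∉ A := by
    intro h
    rw [show A = Fintype.piFinset fun i => cross (X i) (Y i) from rfl,
      Fintype.mem_piFinset] at h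
    exact zero_notMem_cross (h (Classical.arbitrary ι))
  have hAneg : ∀ s ∈ A, -s ∈ A := by
    intro s hs
    rw [show A = Fintype.piFinset fun i => cross (X i) (Y i) from rfl,
      Fintype.mem_piFinset] at hs ⊢
    exact fun i => neg_mem_cross _ (hs i)
  have hchar : ∀ χ : AddChar (∀ i, X i × Y i) ℂ, χ ≠ 1 →
      ‖∑ s ∈ A, χ s‖ ≤ (2 / 3 : ℝ) * A.card := by
    intro χ hχ
    apply char_prod_bound _ _ _ χ hχ
    intro i ψ hψ
    exact cross_char (hXY i).le (hYX i) (h3 i) ψ hψ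
  have hE : (Q : ℝ) * (E.card : ℝ) ≤ Fintype.card (∀ i, X i × Y i) :=
    base_card' Q (by omega) hX
  have hlow : ∀ n ≤ R, (1 - 1 / (Q : ℝ)) ≤
      (U A ^ n) (fun x => if x ∈ E then (1 : ℝ) else 0) 0 := by
    intro n hn
    exact base_lower' hXY h3 n R Q (by omega) hn hι
  -- choice of the power of two
  have hL : (0 : ℝ) < Fintype.card (∀ i, X i × Y i) := by exact_mod_cast Fintype.card_pos
  have hQr : (2 : ℝ) ≤ Q := by exact_mod_cast hQ
  have hAcard : (0 : ℝ) < A.card := by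
    by_contra hcon
    have h0 : A.card = 0 := by
      have : (A.card : ℝ) = 0 := le_antisymm (not_lt.mp hcon) (by positivity)
      exact_mod_cast this
    rw [Finset.card_eq_zero] at h0
    have h1 := hlow 1 hR
    rw [h0, pow_one, U_apply] at h1
    simp at h1
    have h2 : (Q : ℝ)⁻¹ ≤ 2⁻¹ := inv_anti₀ (by norm_num) hQr
    linarith
  have hAL : (A.card : ℝ) ≤ Fintype.card (∀ i, X i × Y i) := by
    exact_mod_cast Finset.card_le_univ A
  have hT' : (64 : ℝ) ≤ T := by exact_mod_cast hT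
  have hex : ∃ m : ℕ, 4 * (T : ℝ) * Fintype.card (∀ i, X i × Y i) ≤
      A.card * ((2 : ℝ) ^ m - 1) := by
    obtain ⟨m, hm⟩ := pow_unbounded_of_one_lt
      (4 * (T : ℝ) * Fintype.card (∀ i, X i × Y i) / A.card + 1)
      (one_lt_two : (1 : ℝ) < 2)
    refine ⟨m, ?_⟩
    have h1 : 4 * (T : ℝ) * Fintype.card (∀ i, X i × Y i) / A.card ≤ (2 : ℝ) ^ m - 1 := by
      linarith
    rw [div_le_iff₀ hAcard] at h1
    linarith
  set m := Nat.find hex with hm
  have hm1 := Nat.find_spec hex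
  rw [← hm] at hm1
  have hm0 : 1 ≤ m := by
    by_contra hcon
    have : m = 0 := by omega
    rw [this, pow_zero, sub_self, mul_zero] at hm1
    nlinarith
  have hm2 : A.card * ((2 : ℝ) ^ (m - 1) - 1) <
      4 * (T : ℝ) * Fintype.card (∀ i, X i × Y i) := by
    have := Nat.find_min hex (m := m - 1) (by omega)
    push Not at this
    exact this
  have hpow : (2 : ℝ) ^ m = 2 * 2 ^ (m - 1) := by
    rw [← pow_succ']; congr 1; omega
  have h5 : (T : ℝ) ≤ 2 ^ m := by nlinarith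
  have h5' : T ≤ 2 ^ m := by exact_mod_cast h5
  have hm4 : 2 ≤ m := by
    by_contra hcon
    have : m = 1 := by omega
    rw [this] at h5
    norm_num at h5
    linarith
  have iK : NeZero (2 ^ m : ℕ) := ⟨by positivity⟩
  have cK : Fintype.card (ZMod (2 ^ m)) = 2 ^ m := ZMod.card _
  let b : ZMod (2 ^ m) := ((2 ^ (m - 1) : ℕ) : ZMod (2 ^ m))
  have hpowN : (2 : ℕ) ^ m = 2 ^ (m - 1) + 2 ^ (m - 1) := by
    rw [← two_mul, ← pow_succ']; congr 1; omega
  have hb : b ≠ 0 := by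
    intro h
    rw [ZMod.natCast_eq_zero_iff] at h
    have := Nat.le_of_dvd (by positivity) h
    have h3 : 0 < 2 ^ (m - 1) := by positivity
    omega
  have hb2 : -b = b := by
    rw [neg_eq_iff_add_eq_zero]
    have : b + b = ((2 ^ (m - 1) + 2 ^ (m - 1) : ℕ) : ZMod (2 ^ m)) := by
      rw [Nat.cast_add]
    rw [this, ZMod.natCast_eq_zero_iff, hpowN]
  have hprof := prof_blow A b T R Q hT (by omega) hQT hA0 hAneg hb hb2 (by rw [cK]; exact h5')
    hchar E hE hlow (by rw [cK]; push_cast; linarith)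
    (by
      rw [cK]; push_cast
      rw [hpow]
      nlinarith)
  exact ⟨m, iK, b, w1 A b, h5', hprof.2.1, hprof.2.2, hprof.1⟩

end base

theorem exists_prof (T R Q : ℕ) (hT : 64 ≤ T) (hQ : 2 ≤ Q) (hQT : Q ≤ T) (hR : 1 ≤ R) :
    ∃ (N : ℕ) (_ : NeZero N) (S : Finset (ZMod N)) (w : ℝ), T ≤ N ∧
      1 / (9 * (T : ℝ)) ≤ 1 - w ∧ 1 - w ≤ 1 / (4 * (T : ℝ)) ∧ Expo S R Q w := by
  classical
  set r : ℕ := Q * 3 ^ R with hr
  have hr1 : 1 ≤ r := by
    have : 1 ≤ 3 ^ R := Nat.one_le_pow _ _ (by norm_num)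
    nlinarith
  set c0 : ℕ := 2 * (Q * r + 1) with hc0
  have hQr2 : 2 ≤ Q * r := by nlinarith
  let c : Fin r → ℕ := fun i => cs c0 i
  have hcge : ∀ i, c0 ≤ c i := fun i => cs_ge c0 (by omega) i
  have hc2 : ∀ i, 2 ∣ c i := fun i => cs_even c0 ⟨_, rfl⟩ i
  have hp : ∀ i, NeZero (c i - 1) := fun i => ⟨by have := hcge i; omega⟩
  have hq : ∀ i, NeZero (c i + 1) := fun i => ⟨by omega⟩
  have hpq : ∀ i, NeZero ((c i - 1) * (c i + 1)) := fun i =>
    ⟨mul_ne_zero (hp i).out (hq i).out⟩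
  have hne : Nonempty (Fin r) := ⟨⟨0, by omega⟩⟩
  have cX : ∀ i, Fintype.card (ZMod (c i - 1)) = c i - 1 := fun i => ZMod.card _
  have cY : ∀ i, Fintype.card (ZMod (c i + 1)) = c i + 1 := fun i => ZMod.card _
  obtain ⟨m, hm, b, w, hTm, hw1, hw2, hprof⟩ := exists_pow_prof (ι := Fin r)
    (X := fun i => ZMod (c i - 1)) (Y := fun i => ZMod (c i + 1)) T R Q hT hQ hQT
    (fun i => by rw [cX, cY]; omega)
    (fun i => by have := hcge i; rw [cX, cY]; omega)
    (fun i => by have := hcge i; rw [cX, Fintype.card_fin]; omega)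
    (fun i => by have := hcge i; rw [cX]; omega)
    (by rw [Fintype.card_fin]) hR
  -- Chinese remainder theorem
  have hcop : Pairwise (Function.onFun Nat.Coprime fun i : Fin r => (c i - 1) * (c i + 1)) := by
    intro i j hij
    rcases lt_or_gt_of_ne hij with h | h
    · exact cop_pair c0 (by omega) (by exact_mod_cast h)
    · exact (cop_pair c0 (by omega) (by exact_mod_cast h)).symm
  let M : ℕ := ∏ i, ((c i - 1) * (c i + 1))
  let e1 : ZMod M ≃+* ∀ i, ZMod ((c i - 1) * (c i + 1)) := ZMod.prodEquivPi _ hcop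
  let e2 : (∀ i, ZMod ((c i - 1) * (c i + 1))) ≃+* ∀ i, ZMod (c i - 1) × ZMod (c i + 1) :=
    RingEquiv.piCongrRight fun i => ZMod.chineseRemainder
      (cop_pq (c i) (by have := hcge i; omega) (hc2 i))
  have hcopM : Nat.Coprime M (2 ^ m) := by
    apply Nat.Coprime.pow_right
    apply Nat.Coprime.prod_left
    intro i _
    apply Nat.Coprime.mul_left
    · exact Nat.Coprime.coprime_dvd_right (hc2 i) (cop_pred _ (by have := hcge i; omega))
    · exact Nat.Coprime.coprime_dvd_right (hc2 i) (cop_succ _)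
  let e3 : ZMod (M * 2 ^ m) ≃+* ZMod M × ZMod (2 ^ m) := ZMod.chineseRemainder hcopM
  let e4 : ZMod (M * 2 ^ m) ≃+* (∀ i, ZMod (c i - 1) × ZMod (c i + 1)) × ZMod (2 ^ m) :=
    e3.trans ((e1.trans e2).prodCongr (RingEquiv.refl _))
  let e5 : ((∀ i, ZMod (c i - 1) × ZMod (c i + 1)) × ZMod (2 ^ m)) ≃+ ZMod (M * 2 ^ m) :=
    e4.symm.toAddEquiv
  have hM : M ≠ 0 := Finset.prod_ne_zero_iff.mpr fun i _ => (hpq i).out
  have hN : NeZero (M * 2 ^ m) := ⟨mul_ne_zero hM (by positivity)⟩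
  refine ⟨M * 2 ^ m, hN, _, w, ?_, hw1, hw2, hprof.map e5⟩
  calc T ≤ 2 ^ m := hTm
    _ = 1 * 2 ^ m := by ring
    _ ≤ M * 2 ^ m := by
      apply Nat.mul_le_mul_right
      omega

end

end Pool.Agent.Y307.Prof
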